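import Pool.Agent.W355.FR.Stm

/-!
# SUMP: summation over primes
-/

set_option autoImplicit false

namespace Pool.Agent.W143.FR

open Polynomial Filter Topology
open Pool.Agent.W355.FR

theorem pi_small (ε : ℝ) (hε : 0 < ε) : ∃ N : ℕ, ∀ n : ℕ, N ≤ n →
    (Nat.primeCounting n : ℝ) ≤ ε * n := by
  have h1 := Chebyshev.eventually_primeCounting_le (ε := 1) one_pos
  have h2 : ∀ᶠ x : ℝ in atTop, (Real.log 4 + 1) / ε ≤ Real.log x :=
    Real.tendsto_log_atTop.eventually_ge_atTop _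
  have h3 : ∀ᶠ x : ℝ in atTop, (2 : ℝ) ≤ x := eventually_ge_atTop 2
  have h4 := (h1.and (h2.and h3))
  rw [eventually_atTop] at h4
  obtain ⟨A, hA⟩ := h4
  refine ⟨⌈A⌉₊, fun n hn => ?_⟩
  obtain ⟨e1, e2, e3⟩ := hA (n : ℝ) (Nat.ceil_le.1 hn)
  rw [Nat.floor_natCast] at e1
  have hlog : 0 < Real.log (n : ℝ) := Real.log_pos (by linarith)
  refine e1.trans ?_
  rw [div_le_iff₀ hε] at e2
  rw [div_le_iff₀ hlog]
  have hn0 : (0 : ℝ) ≤ n := Nat.cast_nonneg n
  nlinarith [mul_le_mul_of_nonneg_right e2 hn0]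

theorem mem_box {H : ℕ} {x : ℤ × ℤ} (hx : x ∈ box H) :
    |x.1| ≤ H ∧ |x.2| ≤ H ∧ Int.gcd x.1 x.2 = 1 := by
  unfold box at hx
  rw [Finset.mem_filter, Finset.mem_product, Finset.mem_Icc, Finset.mem_Icc] at hx
  exact ⟨abs_le.2 hx.1.1, abs_le.2 hx.1.2, hx.2⟩

/-- sum of the absolute values of the coefficients, plus one -/
noncomputable def CC (P : ℤ[X]) : ℕ := ∑ i ∈ Finset.range (P.natDegree + 1), (P.coeff i).natAbs + 1

theorem hv_le (P : ℤ[X]) (hd : P.natDegree ≤ 4) (H : ℕ) (hH : 1 ≤ H) (a b : ℤ) (ha : |a| ≤ H)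
    (hb : |b| ≤ H) : |hv P.natDegree P a b| ≤ (CC P : ℤ) * (H : ℤ) ^ 4 := by
  unfold hv
  have hH' : (1 : ℤ) ≤ H := by exact_mod_cast hH
  have h1 : ∀ i ∈ Finset.range (P.natDegree + 1),
      |P.coeff i * a ^ i * b ^ (P.natDegree - i)| ≤ ((P.coeff i).natAbs : ℤ) * (H : ℤ) ^ 4 := by
    intro i hi
    rw [Finset.mem_range] at hi
    rw [abs_mul, abs_mul, abs_pow, abs_pow, ← Int.natCast_natAbs (P.coeff i), mul_assoc]
    apply mul_le_mul_of_nonneg_left _ (Int.natCast_nonneg _)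
    calc |a| ^ i * |b| ^ (P.natDegree - i) ≤ (H : ℤ) ^ i * (H : ℤ) ^ (P.natDegree - i) :=
          mul_le_mul (pow_le_pow_left₀ (abs_nonneg _) ha _)
            (pow_le_pow_left₀ (abs_nonneg _) hb _) (pow_nonneg (abs_nonneg _) _) (by positivity)
      _ = (H : ℤ) ^ P.natDegree := by
          rw [← pow_add]
          congr 1
          omega
      _ ≤ (H : ℤ) ^ 4 := pow_le_pow_right₀ hH' hd
  calc |∑ i ∈ Finset.range (P.natDegree + 1), P.coeff i * a ^ i * b ^ (P.natDegree - i)|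
      ≤ ∑ i ∈ Finset.range (P.natDegree + 1), |P.coeff i * a ^ i * b ^ (P.natDegree - i)| :=
        Finset.abs_sum_le_sum_abs _ _
    _ ≤ ∑ i ∈ Finset.range (P.natDegree + 1), ((P.coeff i).natAbs : ℤ) * (H : ℤ) ^ 4 :=
        Finset.sum_le_sum h1
    _ = (∑ i ∈ Finset.range (P.natDegree + 1), ((P.coeff i).natAbs : ℤ)) * (H : ℤ) ^ 4 := by
        rw [Finset.sum_mul]
    _ ≤ (CC P : ℤ) * (H : ℤ) ^ 4 := by
        apply mul_le_mul_of_nonneg_right _ (by positivity)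
        unfold CC
        push_cast
        linarith

/-- the pairs with `p²` dividing the value -/
noncomputable def TT (P : ℤ[X]) (H p : ℕ) : Finset (ℤ × ℤ) :=
  (box H).filter (fun x => (p : ℤ) ^ 2 ∣ hv P.natDegree P x.1 x.2)

theorem TT_sub (P : ℤ[X]) (H p : ℕ) (R : Finset ℤ)
    (hR : ∀ a b : ℤ, Int.gcd a b = 1 → (p : ℤ) ^ 2 ∣ hv P.natDegree P a b →
      ∃ r ∈ R, (p : ℤ) ^ 2 ∣ a - r * b ∧ ¬ (p : ℤ) ∣ b) :
    TT P H p ⊆ R.biUnion fun r => (box H).filter (fun x => (p : ℤ) ^ 2 ∣ x.1 - r * x.2) := by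
  intro x hx
  unfold TT at hx
  rw [Finset.mem_filter] at hx
  obtain ⟨r, hr, h1, -⟩ := hR x.1 x.2 (mem_box hx.1).2.2 hx.2
  rw [Finset.mem_biUnion]
  exact ⟨r, hr, Finset.mem_filter.2 ⟨hx.1, h1⟩⟩

theorem TT_card1 (hCL : P_CL) (P : ℤ[X]) (hd4 : P.natDegree ≤ 4) (H p : ℕ) (hp : p.Prime)
    (R : Finset ℤ) (hRc : R.card ≤ P.natDegree)
    (hR : ∀ a b : ℤ, Int.gcd a b = 1 → (p : ℤ) ^ 2 ∣ hv P.natDegree P a b →
      ∃ r ∈ R, (p : ℤ) ^ 2 ∣ a - r * b ∧ ¬ (p : ℤ) ∣ b) :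
    ((TT P H p).card : ℝ) ≤ 4 * ((2 * H + 1) * (2 * H / (p : ℝ) ^ 2 + 1)) := by
  have h1 := Finset.card_le_card (TT_sub P H p R hR)
  have h2 := h1.trans Finset.card_biUnion_le
  have h3 : ((TT P H p).card : ℝ) ≤
      ∑ r ∈ R, (((box H).filter (fun x => (p : ℤ) ^ 2 ∣ x.1 - r * x.2)).card : ℝ) := by
    exact_mod_cast h2
  refine h3.trans ?_
  have h4 : ∑ r ∈ R, (((box H).filter (fun x => (p : ℤ) ^ 2 ∣ x.1 - r * x.2)).card : ℝ) ≤
      ∑ r ∈ R, ((2 * H + 1) * (2 * H / (p : ℝ) ^ 2 + 1) : ℝ) :=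
    Finset.sum_le_sum fun r _ => (hCL H p r hp).1
  refine h4.trans ?_
  rw [Finset.sum_const, nsmul_eq_mul]
  apply mul_le_mul_of_nonneg_right _ (by positivity)
  exact_mod_cast hRc.trans hd4

theorem TT_card2 (hCL : P_CL) (P : ℤ[X]) (hd4 : P.natDegree ≤ 4) (H p : ℕ) (hp : p.Prime)
    (R : Finset ℤ) (hRc : R.card ≤ P.natDegree)
    (hR : ∀ a b : ℤ, Int.gcd a b = 1 → (p : ℤ) ^ 2 ∣ hv P.natDegree P a b →
      ∃ r ∈ R, (p : ℤ) ^ 2 ∣ a - r * b ∧ ¬ (p : ℤ) ∣ b) (hpH : 2 * H ^ 2 < p ^ 2) :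
    (TT P H p).card ≤ 8 := by
  have h1 := Finset.card_le_card (TT_sub P H p R hR)
  have h2 := h1.trans Finset.card_biUnion_le
  refine h2.trans ?_
  refine (Finset.sum_le_sum fun r _ => (hCL H p r hp).2 hpH).trans ?_
  rw [Finset.sum_const, smul_eq_mul]
  omega

theorem main : P_SUMP := by
  intro hRL hCL P hP hd hd4 δ hδ
  classical
  obtain ⟨p₀, hp₀⟩ := hRL P hP hd
  have hC0 : (0 : ℝ) < CC P := by
    have : 0 < CC P := by unfold CC; omega
    exact_mod_cast this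
  obtain ⟨N1, hN1⟩ := pi_small (δ / 96) (by positivity)
  obtain ⟨N2, hN2⟩ := pi_small (δ / (32 * CC P)) (by positivity)
  refine ⟨max (p₀ + 1) ⌈96 / δ⌉₊, fun z hz => ?_⟩
  have hzp : p₀ + 1 ≤ z := (le_max_left _ _).trans hz
  have hzd : 96 / δ ≤ z := Nat.ceil_le.1 ((le_max_right _ _).trans hz)
  have hz0 : (0 : ℝ) < z := by
    have : 0 < z := by omega
    exact_mod_cast this
  refine ⟨max (max (max N1 N2) z) (max 1 ⌈32 / δ⌉₊), fun H hH s hs hsp => ?_⟩
  have hHN1 : N1 ≤ H := by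
    refine le_trans ?_ hH
    exact (le_max_left _ _).trans ((le_max_left _ _).trans (le_max_left _ _))
  have hHN2 : N2 ≤ H := by
    refine le_trans ?_ hH
    exact (le_max_right _ _).trans ((le_max_left _ _).trans (le_max_left _ _))
  have hHz : z ≤ H := by
    refine le_trans ?_ hH
    exact (le_max_right _ _).trans (le_max_left _ _)
  have hH1 : 1 ≤ H := by
    refine le_trans ?_ hH
    exact (le_max_left _ _).trans (le_max_right _ _)
  have hHd : 32 / δ ≤ H := by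
    refine Nat.ceil_le.1 (le_trans ?_ hH)
    exact (le_max_right _ _).trans (le_max_right _ _)
  have hHr : (1 : ℝ) ≤ H := by exact_mod_cast hH1
  -- the three sets
  set M : ℕ := CC P * H ^ 2 with hM
  set A1 : Finset ℕ := (Nat.primesLE (2 * H)).filter (fun p => z < p) with hA1
  set A2 : Finset ℕ := (Nat.primesLE M).filter (fun p => 2 * H < p) with hA2
  obtain ⟨q, hq1, hq2⟩ := Nat.exists_infinite_primes (2 * H + p₀ + 1)
  have hbound2 : ∀ p : ℕ, p.Prime → p₀ < p → 2 * H < p → (TT P H p).card ≤ 8 := by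
    intro p hp hpp h2
    obtain ⟨R, hRc, hR⟩ := hp₀ p hp hpp
    refine TT_card2 hCL P hd4 H p hp R hRc hR ?_
    nlinarith
  have hcover : s ⊆ (A1.biUnion (TT P H) ∪ A2.biUnion (TT P H)) ∪ TT P H q := by
    intro x hx
    have hxb := hs hx
    obtain ⟨p, hp, hzp', hdv⟩ := hsp x hx
    by_cases h0 : hv P.natDegree P x.1 x.2 = 0
    · apply Finset.mem_union_right
      unfold TT
      rw [Finset.mem_filter]
      exact ⟨hxb, by rw [h0]; exact dvd_zero _⟩
    · apply Finset.mem_union_left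
      have hmT : x ∈ TT P H p := by
        unfold TT
        rw [Finset.mem_filter]
        exact ⟨hxb, hdv⟩
      have hle : (p : ℤ) ^ 2 ≤ |hv P.natDegree P x.1 x.2| :=
        Int.le_of_dvd (abs_pos.2 h0) ((dvd_abs _ _).2 hdv)
      have hle2 := hle.trans (hv_le P hd4 H hH1 x.1 x.2 (mem_box hxb).1 (mem_box hxb).2.1)
      have hle3 : p ^ 2 ≤ CC P * H ^ 4 := by exact_mod_cast hle2
      have hpM : p ≤ M := by
        by_contra hc
        push Not at hc
        have h5 : M ^ 2 < p ^ 2 := Nat.pow_lt_pow_left hc (by norm_num)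
        have h6 : CC P * H ^ 4 ≤ M ^ 2 := by
          rw [hM]
          have h7 : CC P ≤ CC P ^ 2 := Nat.le_self_pow (by norm_num) _
          calc CC P * H ^ 4 ≤ CC P ^ 2 * H ^ 4 := Nat.mul_le_mul_right _ h7
            _ = (CC P * H ^ 2) ^ 2 := by ring
        omega
      by_cases h2H : p ≤ 2 * H
      · apply Finset.mem_union_left
        rw [Finset.mem_biUnion]
        refine ⟨p, ?_, hmT⟩
        rw [hA1, Finset.mem_filter, Nat.mem_primesLE]
        exact ⟨⟨h2H, hp⟩, hzp'⟩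
      · apply Finset.mem_union_right
        rw [Finset.mem_biUnion]
        refine ⟨p, ?_, hmT⟩
        rw [hA2, Finset.mem_filter, Nat.mem_primesLE]
        exact ⟨⟨hpM, hp⟩, by omega⟩
  have hc1 := Finset.card_le_card hcover
  have hc2 : s.card ≤ (A1.biUnion (TT P H)).card + (A2.biUnion (TT P H)).card +
      (TT P H q).card :=
    hc1.trans ((Finset.card_union_le _ _).trans
      (Nat.add_le_add_right (Finset.card_union_le _ _) _))
  have hq3 : (TT P H q).card ≤ 8 := hbound2 q hq2 (by omega) (by omega)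
  have hA1c : (A1.card : ℝ) ≤ δ / 96 * (2 * H) := by
    have e1 : A1.card ≤ Nat.primeCounting (2 * H) := by
      rw [← Nat.primesLE_card_eq_primeCounting]
      exact Finset.card_filter_le _ _
    have e2 := hN1 (2 * H) (by omega)
    push_cast at e2
    refine le_trans ?_ e2
    exact_mod_cast e1
  have hA2c : (A2.card : ℝ) ≤ δ / 32 * (H : ℝ) ^ 2 := by
    have e1 : A2.card ≤ Nat.primeCounting M := by
      rw [← Nat.primesLE_card_eq_primeCounting]
      exact Finset.card_filter_le _ _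
    have hMH : N2 ≤ M := by
      rw [hM]
      have : 0 < CC P := by unfold CC; omega
      nlinarith
    have e2 := hN2 M hMH
    have e3 : δ / (32 * CC P) * (M : ℝ) = δ / 32 * (H : ℝ) ^ 2 := by
      rw [hM]
      push_cast
      field_simp
    rw [e3] at e2
    refine le_trans ?_ e2
    exact_mod_cast e1
  have hS2 : ((A2.biUnion (TT P H)).card : ℝ) ≤ 8 * (δ / 32 * (H : ℝ) ^ 2) := by
    have e1 : (A2.biUnion (TT P H)).card ≤ A2.card * 8 := by
      refine Finset.card_biUnion_le.trans ?_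
      refine (Finset.sum_le_sum (g := fun _ => 8) fun p hp => ?_).trans ?_
      · rw [hA2, Finset.mem_filter, Nat.mem_primesLE] at hp
        exact hbound2 p hp.1.2 (by omega) hp.2
      · rw [Finset.sum_const, smul_eq_mul]
    have e2 : ((A2.biUnion (TT P H)).card : ℝ) ≤ (A2.card : ℝ) * 8 := by exact_mod_cast e1
    linarith
  have hsq : ∑ p ∈ A1, (((p : ℝ)) ^ 2)⁻¹ ≤ (z : ℝ)⁻¹ := by
    have e1 : A1 ⊆ Finset.Ioc z (2 * H) := by
      intro p hp
      rw [hA1, Finset.mem_filter, Nat.mem_primesLE] at hp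
      rw [Finset.mem_Ioc]
      exact ⟨hp.2, hp.1.1⟩
    refine (Finset.sum_le_sum_of_subset_of_nonneg e1 fun i _ _ => by positivity).trans ?_
    refine (sum_Ioc_inv_sq_le_sub (by omega) (by omega)).trans ?_
    have : (0 : ℝ) ≤ ((2 * H : ℕ) : ℝ)⁻¹ := by positivity
    linarith
  have hS1 : ((A1.biUnion (TT P H)).card : ℝ) ≤
      4 * (2 * H + 1) * (2 * H) * (z : ℝ)⁻¹ + 4 * (2 * H + 1) * (δ / 96 * (2 * H)) := by
    have e1 : ((A1.biUnion (TT P H)).card : ℝ) ≤ ∑ p ∈ A1, ((TT P H p).card : ℝ) := by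
      exact_mod_cast Finset.card_biUnion_le
    refine e1.trans ?_
    have e2 : ∑ p ∈ A1, ((TT P H p).card : ℝ) ≤
        ∑ p ∈ A1, (4 * (2 * H + 1) * (2 * H) * (((p : ℝ)) ^ 2)⁻¹ + 4 * (2 * H + 1)) := by
      refine Finset.sum_le_sum fun p hp => ?_
      rw [hA1, Finset.mem_filter, Nat.mem_primesLE] at hp
      obtain ⟨R, hRc, hR⟩ := hp₀ p hp.1.2 (by omega)
      have := TT_card1 hCL P hd4 H p hp.1.2 R hRc hR
      refine this.trans (le_of_eq ?_)
      rw [div_eq_mul_inv]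
      ring
    refine e2.trans ?_
    rw [Finset.sum_add_distrib, ← Finset.mul_sum, Finset.sum_const, nsmul_eq_mul]
    apply add_le_add
    · exact mul_le_mul_of_nonneg_left hsq (by positivity)
    · rw [mul_comm]
      exact mul_le_mul_of_nonneg_left hA1c (by positivity)
  have hfin : (s.card : ℝ) ≤ ((A1.biUnion (TT P H)).card : ℝ) +
      ((A2.biUnion (TT P H)).card : ℝ) + 8 := by
    have : s.card ≤ (A1.biUnion (TT P H)).card + (A2.biUnion (TT P H)).card + 8 := by omega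
    exact_mod_cast this
  have hzi : (z : ℝ)⁻¹ ≤ δ / 96 := by
    rw [inv_le_comm₀ hz0 (by positivity), inv_div]
    exact hzd
  have h3H : (2 * (H : ℝ) + 1) ≤ 3 * H := by linarith
  have t1 : 4 * (2 * (H : ℝ) + 1) * (2 * H) * (z : ℝ)⁻¹ ≤ 24 * (H : ℝ) ^ 2 * (δ / 96) := by
    have : 4 * (2 * (H : ℝ) + 1) * (2 * H) ≤ 24 * (H : ℝ) ^ 2 := by nlinarith
    exact mul_le_mul this hzi (by positivity) (by positivity)
  have t2 : 4 * (2 * (H : ℝ) + 1) * (δ / 96 * (2 * H)) ≤ 24 * (H : ℝ) ^ 2 * (δ / 96) := by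
    have : 4 * (2 * (H : ℝ) + 1) * (2 * H) ≤ 24 * (H : ℝ) ^ 2 := by nlinarith
    have e : 4 * (2 * (H : ℝ) + 1) * (δ / 96 * (2 * H)) =
        4 * (2 * (H : ℝ) + 1) * (2 * H) * (δ / 96) := by ring
    rw [e]
    exact mul_le_mul_of_nonneg_right this (by positivity)
  have t3 : (8 : ℝ) ≤ δ / 4 * (H : ℝ) ^ 2 := by
    rw [div_le_iff₀ hδ] at hHd
    nlinarith
  nlinarith

end Pool.Agent.W143.FR
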